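import Pool.Agent.H30.SY.Stm

/-!
# Project SY, module FUB
-/

set_option autoImplicit false

open MeasureTheory ProbabilityTheory Finset
open Q70.Fp Pool.Agent.H30.SY

namespace Pool.Agent.H42.SY

/-- functions of disjoint sets of edges are independent -/
theorem indep_disj {f g : (Ed → ℝ) → ℝ} (S T : Finset Ed) (hST : Disjoint S T)
    (hf : Measurable f) (hg : Measurable g)
    (hfS : ∀ w w', (∀ e ∈ S, w e = w' e) → f w = f w')
    (hgT : ∀ w w', (∀ e ∈ T, w e = w' e) → g w = g w') : IndepFun f g nu := by
  have hind : iIndepFun (fun (e : Ed) (w : Ed → ℝ) => w e) nu :=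
    iIndepFun_infinitePi (P := fun _ => expMeasure 1) (X := fun _ x => x) (fun _ => measurable_id)
  have h1 := hind.indepFun_finset S T hST (fun e => measurable_pi_apply e)
  let ext (U : Finset Ed) : (U → ℝ) → (Ed → ℝ) := fun u e => if h : e ∈ U then u ⟨e, h⟩ else 0
  have hext : ∀ U, Measurable (ext U) := by
    intro U
    refine measurable_pi_iff.2 fun e => ?_
    by_cases h : e ∈ U
    · simp only [ext, h, dif_pos]; exact measurable_pi_apply _
    · simp only [ext, h, dif_neg, not_false_eq_true]; exact measurable_const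
  have h2 := h1.comp (hf.comp (hext S)) (hg.comp (hext T))
  have e1 : (f ∘ ext S) ∘ (fun (a : Ed → ℝ) (i : S) => a i) = f := by
    funext w
    refine hfS _ _ fun e he => ?_
    simp [ext, he]
  have e2 : (g ∘ ext T) ∘ (fun (a : Ed → ℝ) (i : T) => a i) = g := by
    funext w
    refine hgT _ _ fun e he => ?_
    simp [ext, he]
  rw [e1, e2] at h2
  exact h2

/-- **(FUB)** -/
theorem t_FUB : S_FUB := by
  intro S T f g hST hf hg hfS hgT s
  have h2 : IndepFun f g nu := indep_disj S T hST hf hg hfS hgT
  have hpm : nu.map (fun w => (f w, g w)) = (nu.map f).prod (nu.map g) :=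
    (indepFun_iff_map_prod_eq_prod_map_map hf.aemeasurable hg.aemeasurable).1 h2
  have hAm : MeasurableSet {z : ℝ × ℝ | s < |z.1 - z.2|} :=
    measurableSet_lt measurable_const ((measurable_fst.sub measurable_snd).norm)
  have : IsProbabilityMeasure (nu.map f) := Measure.isProbabilityMeasure_map hf.aemeasurable
  have : IsProbabilityMeasure (nu.map g) := Measure.isProbabilityMeasure_map hg.aemeasurable
  have e1 : nu {w | s < |f w - g w|} =
      ∫⁻ y, (nu.map f) ((fun x => (x, y)) ⁻¹' {z : ℝ × ℝ | s < |z.1 - z.2|}) ∂(nu.map g) := by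
    have : nu {w | s < |f w - g w|} =
        (nu.map (fun w => (f w, g w))) {z : ℝ × ℝ | s < |z.1 - z.2|} := by
      rw [Measure.map_apply (hf.prodMk hg) hAm]; rfl
    rw [this, hpm, Measure.prod_apply_symm hAm]
  obtain ⟨y, hy⟩ := exists_le_lintegral (μ := nu.map g)
    (measurable_measure_prodMk_right (μ := nu.map f) hAm).aemeasurable
  rw [← e1, Measure.map_apply hf (measurable_prodMk_right hAm)] at hy
  exact ⟨y, ENNReal.toReal_mono (measure_ne_top _ _) hy⟩

end Pool.Agent.H42.SY
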